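import Pool.Agent.T9h39.PZ.Spec

/-!
# The rank of the incidence map of two partitions (piece R of T9h39/PZ/Spec)
-/

set_option autoImplicit false

namespace Pool.Agent.T9h68.PZ

open Finset Pool.Agent.T9h39.PZ

/-- The part sums for two partitions. -/
def T {k : ℕ} {X A : Type} [Fintype X] [AddCommGroup A] (σ σ' : X → Fin k) :
    (X → A) →+ (Fin k ⊕ Fin k → A) where
  toFun v u := match u with
    | .inl i => ∑ x ∈ univ.filter (fun x => σ x = i), v x
    | .inr i => ∑ x ∈ univ.filter (fun x => σ' x = i), v x
  map_zero' := by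
    funext u
    rcases u with i | i <;> simp
  map_add' v w := by
    funext u
    rcases u with i | i <;> simp [sum_add_distrib]

/-- The sign. -/
def sgn {k : ℕ} {A : Type} [AddCommGroup A] (u : Fin k ⊕ Fin k) (t : A) : A :=
  match u with
  | .inl _ => t
  | .inr _ => -t

lemma sgn_sgn {k : ℕ} {A : Type} [AddCommGroup A] (u : Fin k ⊕ Fin k) (t : A) :
    sgn u (sgn u t) = t := by
  rcases u with i | i <;> simp [sgn]

/-- Signed unit vectors. -/
def E {k : ℕ} {A : Type} [AddCommGroup A] (u : Fin k ⊕ Fin k) (t : A) : Fin k ⊕ Fin k → A :=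
  Pi.single u (sgn u t)

/-- The relation. -/
def R {k : ℕ} {X : Type} (σ σ' : X → Fin k) (u w : Fin k ⊕ Fin k) : Prop :=
  ∃ x, u = .inl (σ x) ∧ w = .inr (σ' x)

lemma sum_pi_single_aux {k : ℕ} {X A : Type} [Fintype X] [AddCommGroup A] [DecidableEq X]
    (σ : X → Fin k) (x : X) (t : A) (i : Fin k) :
    ∑ y ∈ univ.filter (fun y => σ y = i), (Pi.single x t : X → A) y = if σ x = i then t else 0 := by
  rw [sum_filter, Finset.sum_eq_single x]
  · simp
  · intro y _ hy
    rw [Pi.single_eq_of_ne hy, ite_self]
  · intro h
    exact absurd (mem_univ x) h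

lemma T_single {k : ℕ} {X A : Type} [Fintype X] [AddCommGroup A] [DecidableEq X]
    (σ σ' : X → Fin k) (x : X) (t : A) :
    T σ σ' (Pi.single x t) = E (.inl (σ x)) t - E (.inr (σ' x)) t := by
  funext u
  rcases u with i | i
  · simp only [T, AddMonoidHom.coe_mk, ZeroHom.coe_mk, E, sgn, Pi.sub_apply]
    rw [sum_pi_single_aux]
    by_cases h : σ x = i
    · subst h
      simp
    · simp [h, Ne.symm h]
  · simp only [T, AddMonoidHom.coe_mk, ZeroHom.coe_mk, E, sgn, Pi.sub_apply]
    rw [sum_pi_single_aux]
    by_cases h : σ' x = i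
    · subst h
      simp
    · simp [h, Ne.symm h]

lemma E_sub_mem {k : ℕ} {X A : Type} [Fintype X] [AddCommGroup A] (σ σ' : X → Fin k)
    (u w : Fin k ⊕ Fin k) (h : Quot.mk (R σ σ') u = Quot.mk (R σ σ') w) :
    ∀ t : A, E u t - E w t ∈ (T (A := A) σ σ').range := by
  classical
  have key : ∀ u w : Fin k ⊕ Fin k, Relation.EqvGen (R σ σ') u w →
      ∀ t : A, E u t - E w t ∈ (T (A := A) σ σ').range := by
    intro u w h'
    induction h' with
    | rel x y h =>
      obtain ⟨x0, rfl, rfl⟩ := h
      intro t
      exact ⟨Pi.single x0 t, T_single σ σ' x0 t⟩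
    | refl x =>
      intro t
      rw [sub_self]
      exact zero_mem _
    | symm x y _ ih =>
      intro t
      have := neg_mem (ih t)
      rwa [neg_sub] at this
    | trans x y z _ _ ih1 ih2 =>
      intro t
      have := add_mem (ih1 t) (ih2 t)
      rwa [sub_add_sub_cancel] at this
  exact key u w (Quot.eqvGen_exact h)

theorem rank : S_Rank := by
  intro k X A _ _ _ σ σ' hσ hσ'
  classical
  have hrep0 : ∀ q : Quot (R σ σ'), ∃ i, Quot.mk (R σ σ') (.inl i) = q := by
    intro q
    induction q using Quot.ind with
    | mk u =>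
      rcases u with i | i
      · exact ⟨i, rfl⟩
      · obtain ⟨x, rfl⟩ := hσ' i
        exact ⟨σ x, Quot.sound ⟨x, rfl, rfl⟩⟩
  choose rep hrep using hrep0
  refine ⟨fun i => rep (Quot.mk _ (.inl i)), fun i => rep (Quot.mk _ (.inr i)), ?_, ?_, ?_⟩
  · intro x
    exact congrArg rep (Quot.sound ⟨x, rfl, rfl⟩)
  · intro r hr i hi
    let P : Quot (R σ σ') → Prop := Quot.lift (fun u => u = .inl r ∨ u = .inr r) (by
      rintro u w ⟨x, rfl, rfl⟩
      simp only [Sum.inl.injEq, reduceCtorEq, or_false, Sum.inr.injEq, false_or, eq_iff_iff]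
      exact hr x)
    have h : Quot.mk (R σ σ') (.inl i) = Quot.mk (R σ σ') (.inl r) := by
      have := congrArg (fun j => Quot.mk (R σ σ') (.inl j)) hi
      simpa only [hrep] using this
    have h1 : P (Quot.mk (R σ σ') (.inl r)) := Or.inl rfl
    rw [← h] at h1
    rcases h1 with h1 | h1
    · exact Sum.inl.inj h1
    · cases h1
  · intro a a'
    set g : Fin k → Fin k := fun i => rep (Quot.mk _ (.inl i)) with hg
    set G : Finset (Fin k) := univ.image g with hG
    have hmem : ∀ q : Quot (R σ σ'), rep q ∈ G := by
      intro q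
      rw [hG, mem_image]
      refine ⟨rep q, mem_univ _, ?_⟩
      rw [hg]
      simp only [hrep]
    -- the image is large
    let ι : (G → A) → (Fin k ⊕ Fin k → A) := fun s u => match u with
      | .inl q => if h : q ∈ G then s ⟨q, h⟩ else 0
      | .inr _ => 0
    have hsurj : Function.Surjective (fun p : (T (A := A) σ σ').range × (G → A) =>
        (p.1 : Fin k ⊕ Fin k → A) + ι p.2) := by
      intro f
      have hw : ∑ u, (E u (sgn u (f u)) - E (.inl (rep (Quot.mk _ u))) (sgn u (f u))) ∈
          (T (A := A) σ σ').range :=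
        sum_mem fun u _ => E_sub_mem σ σ' _ _ (hrep _).symm _
      refine ⟨(⟨_, hw⟩, fun q => (∑ u, E (.inl (rep (Quot.mk (R σ σ') u))) (sgn u (f u)) :
        Fin k ⊕ Fin k → A) (.inl q.1)), ?_⟩
      have h1 : (∑ u, E u (sgn u (f u)) : Fin k ⊕ Fin k → A) = f := by
        simp only [E, sgn_sgn]
        exact Finset.univ_sum_single f
      have h2 : ι (fun q => (∑ u, E (.inl (rep (Quot.mk (R σ σ') u))) (sgn u (f u)) :
          Fin k ⊕ Fin k → A) (.inl q.1)) =
          ∑ u, E (.inl (rep (Quot.mk (R σ σ') u))) (sgn u (f u)) := by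
        funext w
        rcases w with q | j
        · by_cases hq : q ∈ G
          · simp only [ι, hq, dite_true]
          · simp only [ι, hq, dite_false]
            rw [Finset.sum_apply]
            refine (sum_eq_zero fun u _ => ?_).symm
            have : (.inl q : Fin k ⊕ Fin k) ≠ .inl (rep (Quot.mk (R σ σ') u)) := by
              intro h
              exact hq (Sum.inl.inj h ▸ hmem _)
            simp only [E, Pi.single_apply, this, if_false]
        · simp only [ι]
          rw [Finset.sum_apply]
          refine (sum_eq_zero fun u _ => ?_).symm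
          simp [E]
      show (∑ u, (E u (sgn u (f u)) - E (.inl (rep (Quot.mk _ u))) (sgn u (f u)))) + ι _ = f
      rw [h2, sum_sub_distrib, h1, sub_add_cancel]
    have hcard1 : Fintype.card A ^ (2 * k) ≤
        Nat.card (T (A := A) σ σ').range * Fintype.card A ^ G.card := by
      have h := Nat.card_le_card_of_surjective _ hsurj
      rw [Nat.card_prod, Nat.card_fun, Nat.card_fun, Nat.card_sum, Nat.card_eq_fintype_card (α := A),
        Nat.card_eq_fintype_card (α := Fin k), Fintype.card_fin, Nat.card_eq_fintype_card (α := G),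
        Fintype.card_coe] at h
      rwa [two_mul]
    -- the fibres are small
    have hcard2 : (univ.filter fun v : X → A => Sums v σ a ∧ Sums v σ' a').card *
        Nat.card (T (A := A) σ σ').range ≤ Fintype.card A ^ Fintype.card X := by
      rcases (univ.filter fun v : X → A => Sums v σ a ∧ Sums v σ' a').eq_empty_or_nonempty with
        h0 | ⟨v0, hv0⟩
      · rw [h0]
        simp
      · have hT : ∀ v : X → A, Sums v σ a ∧ Sums v σ' a' →
            T σ σ' v = fun u => match u with
              | .inl i => a i
              | .inr i => a' i := by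
          rintro v ⟨h1, h2⟩
          funext u
          rcases u with i | i
          · have := h1 i
            simp only [T, AddMonoidHom.coe_mk, ZeroHom.coe_mk]
            convert this
          · have := h2 i
            simp only [T, AddMonoidHom.coe_mk, ZeroHom.coe_mk]
            convert this
        rw [mem_filter] at hv0
        have hinj : Function.Injective (fun p : {v : X → A // Sums v σ a ∧ Sums v σ' a'} ×
            (T (A := A) σ σ').range => p.1.1 - v0 + p.2.2.choose) := by
          rintro ⟨⟨v, hv⟩, ⟨w, hw⟩⟩ ⟨⟨v', hv'⟩, ⟨w', hw'⟩⟩ h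
          simp only at h
          have h1 := congrArg (T σ σ') h
          rw [map_add, map_sub, map_add, map_sub, hT v hv, hT v' hv', hT v0 hv0.2, sub_self,
            zero_add, zero_add, hw.choose_spec, hw'.choose_spec] at h1
          subst h1
          have h2 : v = v' := by
            have h3 := add_right_cancel h
            exact sub_left_injective h3
          subst h2
          rfl
        have h := Nat.card_le_card_of_injective _ hinj
        rw [Nat.card_prod, Nat.card_fun, Nat.card_eq_fintype_card (α := A),
          Nat.card_eq_fintype_card (α := X)] at h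
        rwa [Nat.subtype_card (univ.filter fun v : X → A => Sums v σ a ∧ Sums v σ' a')
          (by simp)] at h
    calc (univ.filter fun v : X → A => Sums v σ a ∧ Sums v σ' a').card * Fintype.card A ^ (2 * k)
        ≤ (univ.filter fun v : X → A => Sums v σ a ∧ Sums v σ' a').card *
          (Nat.card (T (A := A) σ σ').range * Fintype.card A ^ G.card) :=
          Nat.mul_le_mul_left _ hcard1
      _ = (univ.filter fun v : X → A => Sums v σ a ∧ Sums v σ' a').card *
          Nat.card (T (A := A) σ σ').range * Fintype.card A ^ G.card := by ring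
      _ ≤ Fintype.card A ^ Fintype.card X * Fintype.card A ^ G.card :=
          Nat.mul_le_mul_right _ hcard2
      _ = Fintype.card A ^ (Fintype.card X + G.card) := (pow_add _ _ _).symm

end Pool.Agent.T9h68.PZ
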